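import Pool.Agent.H95J.HamSeeds

/-!
Pairs (t, n) for which the cyclic group of order n contains a weak zero-[1,t]-sum-free set of
size floor((n-2)/t) + t - 1.
-/

namespace Pool.Agent.Results.MP_302456_co.AttainedPairs

open Finset Pool.Agent.H95J.HamCore

theorem closed {t n k m : ℕ} (ht : 1 ≤ t) (hn : 2 ≤ n) (hm : m = (n - 2) / t + t - 1)
    (h : Good t n m) : Good t (n * (t * k + 1)) ((n * (t * k + 1) - 2) / t + t - 1) := by
  have h1 := closure_good (k := k) ht h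
  rw [target_mul ht hn]
  have : k * n + m = k * n + (n - 2) / t + t - 1 := by
    rw [hm]
    generalize (n - 2) / t = d
    omega
  rwa [this] at h1

theorem result (t n : ℕ) (hn : 2 ≤ n)
    (h : t = 1 ∨ t = 2 ∨
      (t = 3 ∧ 4 ≤ n ∧ (n % 3 = 1 ∨ n % 6 = 2 ∨ 6 ∣ n ∨ 9 ∣ n ∨ 15 ∣ n ∨
        ∃ k, n = 11 * (3 * k + 1))) ∨
      (t = 4 ∧ ((12 ≤ n ∧ n % 8 = 4) ∨ 16 ∣ n ∨ 24 ∣ n ∨
        ∃ k, n = 9 * (4 * k + 1) ∨ n = 11 * (4 * k + 1) ∨ n = 13 * (4 * k + 1) ∨
          n = 17 * (4 * k + 1))) ∨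
      (t = 5 ∧ ∃ k, n = 16 * (5 * k + 1))) :
    ∃ A : Finset (ZMod n), A.card = (n - 2) / t + t - 1 ∧
      ∀ B ⊆ A, B.Nonempty → B.card ≤ t → ∑ x ∈ B, x ≠ 0 := by
  apply good_to_zmod (by omega)
  rcases h with rfl | rfl | ⟨rfl, h4, h⟩ | ⟨rfl, h⟩ | ⟨rfl, k, rfl⟩
  · have := good1 hn
    have e : (n - 2) / 1 + 1 - 1 = n - 2 := by omega
    rwa [e]
  · have := good2 hn
    have e : (n - 2) / 2 + 2 - 1 = n / 2 := by omega
    rwa [e]
  · rcases h with h | h | ⟨k, rfl⟩ | ⟨k, rfl⟩ | ⟨k, rfl⟩ | ⟨k, rfl⟩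
    · obtain ⟨j, rfl⟩ : ∃ j, n = 3 * j + 1 := ⟨n / 3, by omega⟩
      have := fam_seg3 (j := j) (by omega)
      have e : (3 * j + 1 - 2) / 3 + 3 - 1 = j + 1 := by omega
      rwa [e]
    · obtain ⟨K, rfl⟩ : ∃ K, n = 2 * (3 * K - 2) := ⟨n / 6 + 1, by omega⟩
      have := fam_yin (K := K) (by omega)
      have e : (2 * (3 * K - 2) - 2) / 3 + 3 - 1 = 2 * K := by omega
      rwa [e]
    · have := fam3_6 (k := k) (by omega)
      have e : (6 * k - 2) / 3 + 3 - 1 = 2 * k + 1 := by omega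
      rwa [e]
    · have := fam3_9 (k := k) (by omega)
      have e : (9 * k - 2) / 3 + 3 - 1 = 3 * k + 1 := by omega
      rwa [e]
    · have := fam3_15 (k := k) (by omega)
      have e : (15 * k - 2) / 3 + 3 - 1 = 5 * k + 1 := by omega
      rwa [e]
    · exact closed (by omega) (by omega) rfl seed11_3
  · rcases h with ⟨h12, h8⟩ | ⟨k, rfl⟩ | ⟨k, rfl⟩ | ⟨k, h⟩
    · obtain ⟨k, rfl⟩ : ∃ k, n = 2 * (4 * k - 2) := ⟨n / 8 + 1, by omega⟩
      have := fam_four (k := k) (by omega)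
      have e : (2 * (4 * k - 2) - 2) / 4 + 4 - 1 = 2 * k + 1 := by omega
      rwa [e]
    · have := fam4_16 (k := k) (by omega)
      have e : (16 * k - 2) / 4 + 4 - 1 = 4 * k + 2 := by omega
      rwa [e]
    · have := fam4_24 (k := k) (by omega)
      have e : (24 * k - 2) / 4 + 4 - 1 = 6 * k + 2 := by omega
      rwa [e]
    · rcases h with rfl | rfl | rfl | rfl
      · exact closed (by omega) (by omega) rfl seed9_4
      · exact closed (by omega) (by omega) rfl seed11_4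
      · exact closed (by omega) (by omega) rfl seed13_4
      · exact closed (by omega) (by omega) rfl seed17_4
  · exact closed (by omega) (by omega) rfl seed16_5

end Pool.Agent.Results.MP_302456_co.AttainedPairs
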