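import Pool.Agent.H95J.HamSeeds

/-!
If the pair (t, n) is attained then so is (t, n * q) for every q congruent to 1 modulo t.
-/

namespace Pool.Agent.Results.MP_302456_co.MultiplesClosure

open Finset Pool.Agent.H95J.HamCore

theorem result (t n q : ℕ) (ht : 1 ≤ t) (hn : 2 ≤ n) (hq : 1 ≤ q) (hqt : q ≡ 1 [MOD t])
    (h : ∃ A : Finset (ZMod n), A.card = (n - 2) / t + t - 1 ∧
      ∀ B ⊆ A, B.Nonempty → B.card ≤ t → ∑ x ∈ B, x ≠ 0) :
    ∃ A : Finset (ZMod (n * q)), A.card = (n * q - 2) / t + t - 1 ∧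
      ∀ B ⊆ A, B.Nonempty → B.card ≤ t → ∑ x ∈ B, x ≠ 0 := by
  obtain ⟨k, rfl⟩ : ∃ k, q = t * k + 1 := by
    have h1 : t ∣ q - 1 := (Nat.modEq_iff_dvd' hq).1 hqt.symm
    obtain ⟨k, hk⟩ := h1
    exact ⟨k, by omega⟩
  apply good_to_zmod (by positivity)
  have h1 := closure_good (k := k) ht (zmod_to_good (by omega) h)
  rw [target_mul ht hn]
  have : k * n + ((n - 2) / t + t - 1) = k * n + (n - 2) / t + t - 1 := by
    generalize (n - 2) / t = d
    omega
  rwa [this] at h1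

end Pool.Agent.Results.MP_302456_co.MultiplesClosure
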